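import Mathlib

set_option autoImplicit false

open MeasureTheory Polynomial Real Set Filter Topology

namespace Pool.Agent.H.MP_6d4084_an

noncomputable abbrev mu : Measure ℝ := volume.restrict (Ioc 0 (2 * π))

lemma mu_univ : mu.real univ = 2 * π := by
  simp [Measure.real, pi_pos.le]

lemma cint {g : ℝ → ℝ} (hg : Continuous g) : Integrable g mu :=
  (hg.intervalIntegrable 0 (2 * π)).1

lemma pick (F : ℝ → ℝ → ℝ) (g : ℝ → ℝ) (B : ℝ) (hm : Measurable (Function.uncurry F))
    (hB : ∀ u t, F u t ≤ B) (hB0 : 0 ≤ B) (hi : ∀ t, Integrable (fun u => F u t) mu)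
    (hg : Integrable g mu) (hg0 : ∀ t, 0 ≤ g t) (h : ∀ t, 2 * π * g t ≤ ∫ u, F u t ∂mu) :
    ∃ u, ∫ t, g t ∂mu ≤ ∫ t, F u t ∂mu := by
  have hF : Integrable (Function.uncurry F) (mu.prod mu) := by
    rw [integrable_prod_iff' hm.aestronglyMeasurable]
    refine ⟨Eventually.of_forall hi, ?_⟩
    refine Integrable.of_bound (C := 2 * B * (2 * π))
      (hm.norm.stronglyMeasurable.integral_prod_left').aestronglyMeasurable
      (Eventually.of_forall fun t => ?_)
    rw [Real.norm_eq_abs, abs_of_nonneg (integral_nonneg fun _ => norm_nonneg _)]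
    have h1 : ∫ u, ‖F u t‖ ∂mu ≤ ∫ u, (2 * B - F u t) ∂mu := by
      refine integral_mono (hi t).norm ((integrable_const _).sub (hi t)) fun u => ?_
      have := hB u t
      simp only [Real.norm_eq_abs]
      rw [abs_le]
      constructor <;> linarith
    rw [integral_sub (integrable_const _) (hi t), integral_const, mu_univ, smul_eq_mul] at h1
    have h2 := h t
    have h3 : 0 ≤ 2 * π * g t := mul_nonneg (by positivity) (hg0 t)
    simp only [Function.uncurry] at h1 ⊢
    linarith
  have hsw := integral_integral_swap hF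
  have h1 : ∫ t, 2 * π * g t ∂mu ≤ ∫ t, ∫ u, F u t ∂mu ∂mu :=
    integral_mono (hg.const_mul _) hF.integral_prod_right h
  have hne : mu ≠ 0 := by
    intro h0
    have := mu_univ
    rw [h0] at this
    simp at this
  obtain ⟨u, hu⟩ := exists_average_le hne hF.integral_prod_left
  refine ⟨u, le_trans ?_ hu⟩
  rw [average_eq, mu_univ, smul_eq_mul]
  simp only [Function.uncurry]
  rw [hsw]
  rw [integral_const_mul] at h1
  rw [le_inv_mul_iff₀ (by positivity)]
  exact h1

noncomputable abbrev ee (t : ℝ) : ℂ := circleMap 0 1 t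

lemma nee (t : ℝ) : ‖ee t‖ = 1 := by simp

lemma lm (p : ℂ[X]) : ∫ t, log ‖p.eval (ee t)‖ ∂mu = 2 * π * p.logMahlerMeasure := by
  rw [logMahlerMeasure_def, circleAverage_def, intervalIntegral.integral_of_le (by positivity),
    smul_eq_mul, ← mul_assoc, mul_inv_cancel₀ (by positivity), one_mul]

lemma lin (f c : ℂ) (hc : c ≠ 0) :
    ∫ u, log ‖f + c * ee u‖ ∂mu = 2 * π * log (max ‖c‖ ‖f‖) := by
  have := lm (C c * X + C f)
  rw [logMahlerMeasure_eq_log_MahlerMeasure, mahlerMeasure_C_mul_X_add_C hc] at this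
  rw [← this]
  simp [add_comm]

lemma lin_int (f c : ℂ) : Integrable (fun u => log ‖f + c * ee u‖) mu := by
  have : Integrable (fun u => log ‖(C c * X + C f).eval (ee u)‖) mu :=
    (intervalIntegrable_mahlerMeasure (C c * X + C f)).1
  simpa only [eval_add, eval_mul, eval_C, eval_X, add_comm] using this

lemma bdd {f : ℝ → ℝ} (hf : Continuous f) (hp : Function.Periodic f (2 * π)) :
    ∃ B, 1 ≤ B ∧ ∀ t, f t ≤ B := by
  obtain ⟨B, hB⟩ := (hp.isBounded_of_continuous (by positivity) hf).bddAbove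
  exact ⟨max 1 B, le_max_left _ _, fun t => (hB ⟨t, rfl⟩).trans (le_max_right _ _)⟩

lemma log_le_of {x y : ℝ} (hx : 0 ≤ x) (hxy : x ≤ y) (hy : 1 ≤ y) : log x ≤ log y := by
  rcases hx.eq_or_lt with rfl | h
  · simpa using log_nonneg hy
  · exact log_le_log h hxy

lemma stepA (f c : ℂ → ℂ) (h : ℂ → ℝ) (hf : Continuous f) (hc : Continuous c) (hh : Continuous h)
    (h1 : ∀ z, 1 ≤ h z) : ∃ u, ∫ t, log (max ‖f (ee t)‖ (max ‖c (ee t)‖ (h (ee t)))) ∂mu ≤
      ∫ t, log (max ‖f (ee t) + c (ee t) * ee u‖ (h (ee t))) ∂mu := by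
  have ce : Continuous ee := continuous_circleMap 0 1
  obtain ⟨B, hB1, hB⟩ := bdd (f := fun t => ‖f (ee t)‖ + ‖c (ee t)‖ + h (ee t)) (by fun_prop)
    (fun t => by simp only [ee, periodic_circleMap 0 1 t])
  have cF : Continuous (fun x : ℝ × ℝ =>
      log (max ‖f (ee x.2) + c (ee x.2) * ee x.1‖ (h (ee x.2)))) :=
    Continuous.log (by fun_prop) fun x => (lt_of_lt_of_le one_pos ((h1 _).trans (le_max_right _ _))).ne'
  have cG : ∀ t, Integrable (fun u => log (max ‖f (ee t) + c (ee t) * ee u‖ (h (ee t)))) mu :=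
    fun t => cint (Continuous.log (by fun_prop) fun x =>
      (lt_of_lt_of_le one_pos ((h1 _).trans (le_max_right _ _))).ne')
  refine pick (fun u t => log (max ‖f (ee t) + c (ee t) * ee u‖ (h (ee t)))) _ (log B)
    cF.measurable (fun u t => ?_) (log_nonneg hB1) (fun t => ?_) ?_ (fun t => ?_) (fun t => ?_)
  · refine log_le_log (lt_of_lt_of_le one_pos ((h1 _).trans (le_max_right _ _))) ?_
    refine le_trans (max_le ?_ ?_) (hB t)
    · have := norm_add_le (f (ee t)) (c (ee t) * ee u)
      rw [norm_mul, nee, mul_one] at this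
      linarith [h1 (ee t)]
    · linarith [norm_nonneg (f (ee t)), norm_nonneg (c (ee t))]
  · exact cG t
  · exact cint (Continuous.log (by fun_prop) fun x =>
      (lt_of_lt_of_le one_pos ((h1 _).trans ((le_max_right _ _).trans (le_max_right _ _)))).ne')
  · exact log_nonneg ((h1 _).trans ((le_max_right _ _).trans (le_max_right _ _)))
  · have hi := cG t
    by_cases hc0 : c (ee t) = 0
    · simp only [hc0, norm_zero, zero_mul, add_zero, integral_const, mu_univ, smul_eq_mul]
      rw [max_eq_right (zero_le_one.trans (h1 _))]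
    rcases le_total (max ‖c (ee t)‖ ‖f (ee t)‖) (h (ee t)) with hle | hle
    · rw [← max_assoc, max_comm ‖f (ee t)‖, max_eq_right hle, ← mu_univ, ← smul_eq_mul,
        ← integral_const]
      exact integral_mono (integrable_const _) hi fun u =>
        log_le_log (lt_of_lt_of_le one_pos (h1 _)) (le_max_right _ _)
    · rw [← max_assoc, max_comm ‖f (ee t)‖, max_eq_left hle, ← lin _ _ hc0]
      exact integral_mono (lin_int _ _) hi fun u =>
        log_le_of (norm_nonneg _) (le_max_left _ _) ((h1 _).trans (le_max_right _ _))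

lemma stepB (f : ℂ → ℂ) (hf : Continuous f) :
    ∃ u, ∫ t, log (max ‖f (ee t)‖ 1) ∂mu ≤ ∫ t, log ‖f (ee t) + ee u‖ ∂mu := by
  have ce : Continuous ee := continuous_circleMap 0 1
  obtain ⟨B, hB1, hB⟩ := bdd (f := fun t => ‖f (ee t)‖ + 1) (by fun_prop)
    (fun t => by simp only [ee, periodic_circleMap 0 1 t])
  have cF : Continuous (fun x : ℝ × ℝ => ‖f (ee x.2) + ee x.1‖) := by fun_prop
  refine pick (fun u t => log ‖f (ee t) + ee u‖) _ (log B)
    (measurable_log.comp cF.measurable) (fun u t => ?_) (log_nonneg hB1) (fun t => ?_) ?_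
    (fun t => ?_) (fun t => ?_)
  · refine log_le_of (norm_nonneg _) (le_trans ?_ (hB t)) hB1
    simpa [nee] using norm_add_le (f (ee t)) (ee u)
  · simpa using lin_int (f (ee t)) 1
  · exact cint (Continuous.log (by fun_prop) fun x =>
      (lt_of_lt_of_le one_pos (le_max_right _ _)).ne')
  · exact log_nonneg (le_max_right _ _)
  · have := lin (f (ee t)) 1 one_ne_zero
    simp only [one_mul, norm_one] at this
    rw [this, max_comm]

noncomputable def HH (n : ℕ) : ℕ → ℂ → ℝ
  | 0 => fun _ => 1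
  | m + 1 => fun w => max ‖(n.choose (m + 1) : ℂ) * (w + 1) ^ (m + 1)‖ (HH n m w)

lemma HH_cont (n m : ℕ) : Continuous (HH n m) := by
  induction m with
  | zero => exact continuous_const
  | succ m ih => exact Continuous.max (by fun_prop) ih

lemma HH_one (n m : ℕ) (w : ℂ) : 1 ≤ HH n m w := by
  induction m with
  | zero => exact le_rfl
  | succ m ih => exact ih.trans (le_max_right _ _)

lemma HH_ge (n m : ℕ) (w : ℂ) (j : ℕ) (hj : j ≤ m) :
    (n.choose j : ℝ) * ‖w + 1‖ ^ j ≤ HH n m w := by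
  induction m with
  | zero =>
    obtain rfl : j = 0 := by omega
    simp [HH]
  | succ m ih =>
    rcases Nat.lt_succ_iff_lt_or_eq.1 (Nat.lt_succ_of_le hj) with h | rfl
    · exact (ih (by omega)).trans (le_max_right _ _)
    · refine le_trans ?_ (le_max_left _ _)
      simp

lemma desc (n : ℕ) (I0 : ℝ) (m : ℕ) : m < n → ∀ A : ℂ[X], A.coeff n = 1 →
    (∀ j, ‖A.coeff j‖ ≤ n.choose j) → (∀ j ≤ m, A.coeff j = 0) →
    I0 ≤ ∫ t, log (max ‖A.eval (ee t + 1)‖ (HH n m (ee t))) ∂mu →
    ∃ p : ℂ[X], p.coeff n = 1 ∧ (∀ j, ‖p.coeff j‖ ≤ n.choose j) ∧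
      I0 ≤ ∫ t, log ‖p.eval (ee t + 1)‖ ∂mu := by
  induction m with
  | zero =>
    intro hn A h1 h2 h3 h4
    obtain ⟨u, hu⟩ := stepB (fun w => A.eval (w + 1)) (by fun_prop)
    refine ⟨A + C (ee u), ?_, fun j => ?_, ?_⟩
    · rw [coeff_add, h1, coeff_C, if_neg hn.ne', add_zero]
    · rw [coeff_add, coeff_C]
      split_ifs with hj
      · subst hj
        simp [h3 0 le_rfl]
      · simpa using h2 j
    · simpa using h4.trans hu
  | succ m ih =>
    intro hn A h1 h2 h3 h4
    obtain ⟨u, hu⟩ := stepA (fun w => A.eval (w + 1))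
      (fun w => (n.choose (m + 1) : ℂ) * (w + 1) ^ (m + 1)) (HH n m) (by fun_prop) (by fun_prop)
      (HH_cont n m) (HH_one n m)
    refine ih (by omega) (A + monomial (m + 1) ((n.choose (m + 1) : ℂ) * ee u)) ?_ (fun j => ?_)
      (fun j hj => ?_) ?_
    · rw [coeff_add, h1, coeff_monomial, if_neg hn.ne, add_zero]
    · rw [coeff_add, coeff_monomial]
      split_ifs with hj
      · subst hj
        simp [h3 _ le_rfl]
      · simpa using h2 j
    · rw [coeff_add, coeff_monomial, if_neg (by omega), h3 j (by omega), add_zero]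
    · refine (h4.trans hu).trans (le_of_eq ?_)
      congr 1
      funext t
      simp only [eval_add, eval_monomial]
      congr 3
      ring

noncomputable def LK : ℝ := ∫ t, log (1 + ‖1 + ee t‖) ∂mu

lemma LK_int (w : ℂ) : Integrable (fun t => log (1 + ‖w + ee t‖)) mu := by
  have ce : Continuous ee := continuous_circleMap 0 1
  exact cint (Continuous.log (by fun_prop) fun x => by positivity)

lemma lower (n : ℕ) (hn : 0 < n) : ∃ p : ℂ[X], p.Monic ∧ p.natDegree = n ∧
    (∀ j, ‖p.coeff j‖ ≤ n.choose j) ∧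
    n * LK - 2 * π * log (n + 1) ≤ ∫ t, log ‖p.eval (ee t + 1)‖ ∂mu := by
  obtain ⟨m, rfl⟩ : ∃ m, n = m + 1 := ⟨n - 1, by omega⟩
  have ce : Continuous ee := continuous_circleMap 0 1
  obtain ⟨p, h1, h2, h3⟩ := desc (m + 1) (((m + 1 : ℕ) : ℝ) * LK - 2 * π * log ((m + 1 : ℕ) + 1)) m
    (by omega) (X ^ (m + 1)) (by simp) (fun j => by
      rw [coeff_X_pow]
      split_ifs with hj
      · simp [hj]
      · simp) (fun j hj => by rw [coeff_X_pow, if_neg (by omega)]) (by
      rw [LK, ← mu_univ, ← smul_eq_mul (mu.real univ), ← integral_const, ← integral_const_mul,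
        ← integral_sub ((LK_int 1).const_mul _) (integrable_const _)]
      refine integral_mono (((LK_int 1).const_mul _).sub (integrable_const _))
        (cint (Continuous.log (Continuous.max (by fun_prop) ((HH_cont _ _).comp ce)) fun x =>
          (lt_of_lt_of_le one_pos ((HH_one _ _ _).trans (le_max_right _ _))).ne')) fun t => ?_
      have e : max ‖eval (ee t + 1) (X ^ (m + 1))‖ (HH (m + 1) m (ee t)) =
          HH (m + 1) (m + 1) (ee t) := by simp [HH]
      simp only [e]
      rw [← log_pow, ← log_div (by positivity) (by positivity)]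
      refine log_le_log (by positivity) ?_
      rw [div_le_iff₀ (by positivity), add_comm (1 : ℝ), add_pow, add_comm (1 : ℂ)]
      refine (Finset.sum_le_card_nsmul _ _ (HH (m + 1) (m + 1) (ee t)) fun j hj => ?_).trans ?_
      · rw [one_pow, mul_one, mul_comm]
        exact HH_ge _ _ _ j (Nat.lt_succ_iff.1 (Finset.mem_range.1 hj))
      · simp [mul_comm])
  have hd : p.natDegree ≤ m + 1 := by
    rw [natDegree_le_iff_coeff_eq_zero]
    intro j hj
    have := h2 j
    rw [Nat.choose_eq_zero_of_lt hj] at this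
    simpa using this
  have hd' : p.natDegree = m + 1 := natDegree_eq_of_le_of_coeff_ne_zero hd (by simp [h1])
  exact ⟨p, by rw [Monic, leadingCoeff, hd', h1], hd', h2, h3⟩

lemma mm (p : ℂ[X]) (hp : p.Monic) (w : ℂ) : (p.comp (X + C w)).mahlerMeasure =
    (p.roots.map (fun a => max 1 ‖a - w‖)).prod := by
  conv_lhs => rw [(IsAlgClosed.splits p).eq_prod_roots_of_monic hp]
  rw [multiset_prod_comp, prod_mahlerMeasure_eq_mahlerMeasure_prod, Multiset.map_map,
    Multiset.map_map]
  congr 2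
  funext a
  simp only [Function.comp, sub_comp, X_comp, C_comp]
  rw [show X + C w - C a = X - C (a - w) by rw [map_sub]; ring, mahlerMeasure_X_sub_C]

lemma ev (p : ℂ[X]) (hp : p.Monic) (w : ℂ) :
    ‖p.eval w‖ = (p.roots.map (fun a => ‖a - w‖)).prod := by
  conv_lhs => rw [(IsAlgClosed.splits p).eq_prod_roots_of_monic hp]
  rw [eval_multiset_prod, Multiset.map_map]
  induction p.roots using Multiset.induction_on with
  | empty => simp
  | cons a s ih =>
    simp only [Multiset.map_cons, Multiset.prod_cons, norm_mul, ih]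
    simp [norm_sub_rev]

lemma mexp (p : ℂ[X]) (hp : p.Monic) (w : ℂ) : (p.comp (X + C w)).mahlerMeasure =
    exp ((2 * π)⁻¹ * ∫ t, log ‖p.eval (ee t + w)‖ ∂mu) := by
  have h0 : p.comp (X + C w) ≠ 0 := (hp.comp_X_add_C w).ne_zero
  rw [mahlerMeasure_def_of_ne_zero h0, intervalIntegral.integral_of_le (by positivity)]
  simp [eval_comp]

lemma exq (p : ℂ[X]) (hp : p.Monic) : ∃ q : ℂ[X], q.Monic ∧ q ∣ p ∧
    ‖q.eval 1‖ = (p.comp (X + C 1)).mahlerMeasure := by
  classical
  refine ⟨((p.roots.filter fun a => 1 ≤ ‖a - 1‖).map fun a => X - C a).prod,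
    monic_multiset_prod_of_monic _ _ fun a _ => monic_X_sub_C a, ?_, ?_⟩
  · exact (Multiset.prod_dvd_prod_of_le (Multiset.map_le_map (Multiset.filter_le _ _))).trans
      (prod_multiset_X_sub_C_dvd p)
  · rw [mm p hp, eval_multiset_prod, Multiset.map_map]
    induction p.roots using Multiset.induction_on with
    | empty => simp
    | cons a s ih =>
      rw [Multiset.filter_cons]
      split_ifs with h
      · simp only [Multiset.singleton_add, Multiset.map_cons, Multiset.prod_cons, norm_mul, ih,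
          max_eq_right h]
        simp [norm_sub_rev]
      · simp only [zero_add, Multiset.map_cons, Multiset.prod_cons, ih,
          max_eq_left (not_le.1 h).le, one_mul]

lemma rot (w : ℂ) (hw : ‖w‖ = 1) : ∫ t, log (1 + ‖w + ee t‖) ∂mu = LK := by
  obtain ⟨θ, rfl⟩ := (Complex.norm_eq_one_iff w).1 hw
  have hp : Function.Periodic (fun t => log (1 + ‖1 + ee t‖)) (2 * π) := fun t => by
    simp only [ee, periodic_circleMap 0 1 t]
  have h1 := hp.intervalIntegral_add_eq (-θ) 0
  rw [LK, ← intervalIntegral.integral_of_le (by positivity),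
    ← intervalIntegral.integral_of_le (by positivity)]
  rw [zero_add] at h1
  rw [← h1]
  have h2 := intervalIntegral.integral_comp_sub_right (a := 0) (b := 2 * π)
    (fun t => log (1 + ‖1 + ee t‖)) θ
  rw [zero_sub, show 2 * π - θ = -θ + 2 * π by ring] at h2
  rw [← h2]
  congr 1
  funext t
  have : Complex.exp (θ * Complex.I) + ee t = Complex.exp (θ * Complex.I) * (1 + ee (t - θ)) := by
    simp only [ee, circleMap, zero_add, Complex.ofReal_one, one_mul, mul_add, mul_one,
      ← Complex.exp_add]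
    congr 2
    push_cast
    ring
  rw [this, norm_mul, hw, one_mul]

lemma upper1 (p q : ℂ[X]) (hp : p.Monic) (hq : q.Monic) (hd : q ∣ p) (b : ℝ)
    (hb : ∀ j ≤ p.natDegree, ‖p.coeff j‖ ≤ b * p.natDegree.choose j) (w : ℂ) (hw : ‖w‖ = 1) :
    ‖q.eval w‖ ≤ exp ((2 * π)⁻¹ * LK) ^ p.natDegree * b := by
  have hb1 : 1 ≤ b := by simpa [hp.coeff_natDegree] using hb _ le_rfl
  obtain ⟨r, rfl⟩ := hd
  have hr : r.Monic := hq.of_mul_monic_left hp
  have h1 : ‖q.eval w‖ ≤ (q.comp (X + C w)).mahlerMeasure := by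
    rw [ev q hq, mm q hq]
    exact Multiset.prod_map_le_prod_map₀ _ _ (fun a _ => norm_nonneg _) fun a _ => le_max_right _ _
  have h2 : 1 ≤ (r.comp (X + C w)).mahlerMeasure :=
    one_le_mahlerMeasure_of_one_le_norm_leadingCoeff (by simp [(hr.comp_X_add_C w).leadingCoeff])
  have h3 : (q.comp (X + C w)).mahlerMeasure ≤ ((q * r).comp (X + C w)).mahlerMeasure := by
    rw [mul_comp, mahlerMeasure_mul]
    exact le_mul_of_one_le_right (mahlerMeasure_nonneg _) h2
  refine h1.trans (h3.trans ?_)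
  set p := q * r
  rw [mexp p hp, ← exp_nat_mul, ← exp_log (lt_of_lt_of_le one_pos hb1), ← exp_add, exp_le_exp]
  have h4 : ∫ t, log ‖p.eval (ee t + w)‖ ∂mu ≤
      ∫ t, (p.natDegree * log (1 + ‖w + ee t‖) + log b) ∂mu := by
    refine integral_mono ?_ (((LK_int w).const_mul _).add (integrable_const _)) fun t => ?_
    · have : Integrable (fun u => log ‖(p.comp (X + C w)).eval (ee u)‖) mu :=
        (intervalIntegrable_mahlerMeasure (p.comp (X + C w))).1
      simpa only [eval_comp, eval_add, eval_C, eval_X] using this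
    · simp only
      rw [← log_pow, ← log_mul (by positivity) (by positivity)]
      refine log_le_of (norm_nonneg _) ?_ (one_le_mul_of_one_le_of_one_le
        (one_le_pow₀ (by linarith [norm_nonneg (w + ee t)])) hb1)
      rw [eval_eq_sum_range, add_comm (1 : ℝ), add_pow, Finset.sum_mul, add_comm w]
      refine (norm_sum_le _ _).trans (Finset.sum_le_sum fun j hj => ?_)
      rw [norm_mul, norm_pow, one_pow, mul_one]
      have := hb j (Nat.lt_succ_iff.1 (Finset.mem_range.1 hj))
      calc _ ≤ b * p.natDegree.choose j * ‖ee t + w‖ ^ j := by gcongr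
        _ = _ := by ring
  rw [integral_add ((LK_int w).const_mul _) (integrable_const _), integral_const_mul, rot w hw,
    integral_const, mu_univ, smul_eq_mul] at h4
  calc _ ≤ (2 * π)⁻¹ * (p.natDegree * LK + 2 * π * log b) := by gcongr
    _ = _ := by field_simp

lemma upper (p q : ℂ[X]) (hp : p.Monic) (hq : q.Monic) (hd : q ∣ p) (b : ℝ)
    (hb : ∀ j ≤ p.natDegree, ‖p.coeff j‖ ≤ b * p.natDegree.choose j) (w : ℂ) (hw : ‖w‖ ≤ 1) :
    ‖q.eval w‖ ≤ exp ((2 * π)⁻¹ * LK) ^ p.natDegree * b := by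
  refine Complex.norm_le_of_forall_mem_frontier_norm_le (U := Metric.ball (0 : ℂ) 1)
    (f := fun z => q.eval z) Metric.isBounded_ball q.differentiable.diffContOnCl (fun z hz => ?_) ?_
  · rw [frontier_ball _ one_ne_zero] at hz
    exact upper1 p q hp hq hd b hb z (by simpa using hz)
  · rw [closure_ball _ one_ne_zero]
    simpa using hw

lemma lower' (n : ℕ) (hn : 0 < n) : ∃ p q : ℂ[X], p.Monic ∧ p.natDegree = n ∧ q.Monic ∧ q ∣ p ∧
    (∀ j, ‖p.coeff j‖ ≤ n.choose j) ∧ exp ((2 * π)⁻¹ * LK) ^ n / (n + 1) ≤ ‖q.eval 1‖ := by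
  obtain ⟨p, h1, h2, h3, h4⟩ := lower n hn
  obtain ⟨q, g1, g2, g3⟩ := exq p h1
  refine ⟨p, q, h1, h2, g1, g2, h3, ?_⟩
  rw [g3, mexp p h1, ← exp_nat_mul, ← exp_log (show (0 : ℝ) < n + 1 by positivity), ← exp_sub,
    exp_le_exp]
  calc _ = (2 * π)⁻¹ * (n * LK - 2 * π * log (n + 1)) := by field_simp
    _ ≤ _ := by gcongr

end Pool.Agent.H.MP_6d4084_an
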